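import Pool.Agent.H97.EM.Rel.Def
import Pool.Agent.H97.EM.Low.Bas

/-! Relative computability: more closure properties. -/

namespace Pool.Agent.H97.EM

private theorem bex_comp {α : Type*} [Primcodable α] {P : α → ℕ → Bool} (hP : Computable₂ P)
    {n : α → ℕ} (hn : Computable n) :
    Computable fun a => (List.range (n a)).any fun k => P a k := by
  have h1 : Computable₂ fun a k => !(P a k) := (Primrec.not.to_comp.comp hP : Computable fun p : α × ℕ => !(P p.1 p.2))
  have h2 := Primrec.not.to_comp.comp (ball_comp h1 hn)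
  refine h2.of_eq fun a => ?_
  rw [List.all_eq_not_any_not, Bool.not_not]
  simp

/-- the first `m` entries -/
private def pre (τ : List Bool) (m : ℕ) : List Bool := (List.range m).map fun i => τ.getD i false

private theorem pre_comp : Primrec₂ pre := by
  refine Primrec.list_map (Primrec.list_range.comp Primrec.snd) ?_
  exact (Primrec.list_getD false).comp (Primrec.fst.comp Primrec.fst) Primrec.snd

private theorem pre_eq (X : ℕ → Bool) {m M : ℕ} (h : m ≤ M) :
    pre ((List.range M).map X) m = (List.range m).map X := by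
  unfold pre
  refine List.map_congr_left fun i hi => ?_
  have hi' : i < m := List.mem_range.1 hi
  have : i < ((List.range M).map X).length := by
    rw [List.length_map, List.length_range]
    omega
  rw [List.getD_eq_getElem _ _ this]
  simp

/-- some initial segment is accepted -/
private def acc {α : Type*} (R : α → List Bool → Bool) (a : α) (τ : List Bool) : Bool :=
  (List.range (τ.length + 1)).any fun m => R a (pre τ m)

private theorem acc_comp {α : Type*} [Primcodable α] {R : α → List Bool → Bool} (hR : Computable₂ R) :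
    Computable₂ (acc R) := by
  have h : Computable fun p : α × List Bool => (List.range (p.2.length + 1)).any fun m => R p.1 (pre p.2 m) := by
    refine bex_comp (P := fun (p : α × List Bool) m => R p.1 (pre p.2 m)) (n := fun p => p.2.length + 1) ?_ ?_
    · exact hR.comp (Computable.fst.comp Computable.fst)
        (pre_comp.to_comp.comp (Computable.snd.comp Computable.fst) Computable.snd)
    · exact Computable.succ.comp (Computable.list_length.comp Computable.snd)
  exact h

private theorem acc_iff {α : Type*} (R : α → List Bool → Bool) (a : α) (X : ℕ → Bool) (M : ℕ) :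
    acc R a ((List.range M).map X) = true ↔ ∃ m ≤ M, R a ((List.range m).map X) = true := by
  unfold acc
  rw [List.any_eq_true]
  constructor
  · rintro ⟨m, hm, h⟩
    rw [List.mem_range, List.length_map, List.length_range] at hm
    rw [pre_eq X (by omega)] at h
    exact ⟨m, by omega, h⟩
  · rintro ⟨m, hm, h⟩
    refine ⟨m, ?_, ?_⟩
    · rw [List.mem_range, List.length_map, List.length_range]
      omega
    · rw [pre_eq X hm]
      exact h

variable {α β : Type*} [Primcodable α] {X Y : ℕ → Bool}

/-- Bounded universal quantifier (all the finitely many accepted initial segments are parts of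
one initial segment). -/
theorem CeIn.ball {P : α × ℕ → Prop} (h : CeIn X P) {n : α → ℕ} (hn : Computable n) :
    CeIn X fun a => ∀ k < n a, P (a, k) := by
  obtain ⟨R, hR, h⟩ := h
  refine ⟨fun a τ => (List.range (n a)).all fun k => acc R (a, k) τ, ?_, fun a => ?_⟩
  · have h1 : Computable fun p : α × List Bool =>
        (List.range (n p.1)).all fun k => acc R (p.1, k) p.2 := by
      refine ball_comp (P := fun (p : α × List Bool) k => acc R (p.1, k) p.2)
        (n := fun p => n p.1) ?_ (hn.comp Computable.fst)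
      exact (acc_comp hR).comp (Computable.pair (Computable.fst.comp Computable.fst) Computable.snd)
        (Computable.snd.comp Computable.fst)
    exact h1
  · have key : ∀ N : ℕ, (∀ k < N, P (a, k)) → ∃ M, ∀ k < N, ∃ m ≤ M,
        R (a, k) ((List.range m).map X) = true := by
      intro N
      induction N with
      | zero => exact fun _ => ⟨0, fun k hk => absurd hk (Nat.not_lt_zero k)⟩
      | succ N ih =>
        intro hN
        obtain ⟨M, hM⟩ := ih fun k hk => hN k (Nat.lt_succ_of_lt hk)
        obtain ⟨m, hm⟩ := (h (a, N)).1 (hN N (Nat.lt_succ_self N))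
        refine ⟨max M m, fun k hk => ?_⟩
        rcases Nat.lt_succ_iff_lt_or_eq.1 hk with hk | rfl
        · obtain ⟨m', hm', h2⟩ := hM k hk
          exact ⟨m', hm'.trans (le_max_left _ _), h2⟩
        · exact ⟨m, le_max_right _ _, hm⟩
    constructor
    · intro h1
      obtain ⟨M, hM⟩ := key (n a) h1
      refine ⟨M, ?_⟩
      rw [List.all_eq_true]
      intro k hk
      rw [acc_iff]
      exact hM k (List.mem_range.1 hk)
    · rintro ⟨M, hM⟩ k hk
      rw [List.all_eq_true] at hM
      have h2 := hM k (List.mem_range.2 hk)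
      rw [acc_iff] at h2
      obtain ⟨m, -, hm⟩ := h2
      exact (h (a, k)).2 ⟨m, hm⟩

theorem CeIn.bex {P : α × ℕ → Prop} (h : CeIn X P) {n : α → ℕ} (hn : Computable n) :
    CeIn X fun a => ∃ k < n a, P (a, k) := by
  obtain ⟨R, hR, h⟩ := h
  refine ⟨fun a τ => (List.range (n a)).any fun k => R (a, k) τ, ?_, fun a => ?_⟩
  · have h1 : Computable fun p : α × List Bool =>
        (List.range (n p.1)).any fun k => R (p.1, k) p.2 := by
      refine bex_comp (P := fun (p : α × List Bool) k => R (p.1, k) p.2)
        (n := fun p => n p.1) ?_ (hn.comp Computable.fst)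
      exact hR.comp (Computable.pair (Computable.fst.comp Computable.fst) Computable.snd)
        (Computable.snd.comp Computable.fst)
    exact h1
  · constructor
    · rintro ⟨k, hk, h1⟩
      obtain ⟨m, hm⟩ := (h (a, k)).1 h1
      refine ⟨m, ?_⟩
      rw [List.any_eq_true]
      exact ⟨k, List.mem_range.2 hk, hm⟩
    · rintro ⟨m, hm⟩
      rw [List.any_eq_true] at hm
      obtain ⟨k, hk, h1⟩ := hm
      exact ⟨k, List.mem_range.1 hk, (h (a, k)).2 ⟨m, h1⟩⟩

theorem CeIn.existsD [Denumerable β] {P : α × β → Prop} (h : CeIn X P) :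
    CeIn X fun a => ∃ b, P (a, b) := by
  have h1 : CeIn X fun q : α × ℕ => P (q.1, Denumerable.ofNat β q.2) :=
    h.comp (f := fun q : α × ℕ => (q.1, Denumerable.ofNat β q.2))
      (Computable.pair Computable.fst ((Computable.ofNat β).comp Computable.snd))
  obtain ⟨R, hR, h2⟩ := CeIn.exists h1
  refine ⟨R, hR, fun a => ?_⟩
  rw [← h2 a]
  constructor
  · rintro ⟨b, hb⟩
    refine ⟨Encodable.encode b, ?_⟩
    show P (a, Denumerable.ofNat β (Encodable.encode b))
    rw [Denumerable.ofNat_encode]
    exact hb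
  · rintro ⟨n, hn⟩
    exact ⟨_, hn⟩

theorem CeIn.of_iff {P Q : α → Prop} (h : CeIn X P) (hPQ : ∀ a, P a ↔ Q a) : CeIn X Q := by
  obtain ⟨R, hR, h⟩ := h
  exact ⟨R, hR, fun a => (hPQ a).symm.trans (h a)⟩

theorem CompIn.of_iff {P Q : α → Prop} (h : CompIn X P) (hPQ : ∀ a, P a ↔ Q a) :
    CompIn X Q :=
  ⟨h.1.of_iff hPQ, h.2.of_iff fun a => not_congr (hPQ a)⟩

theorem CompIn.not {P : α → Prop} (h : CompIn X P) : CompIn X fun a => ¬ P a :=
  ⟨h.2, h.1.of_iff fun _ => not_not.symm⟩

theorem CompIn.and {P Q : α → Prop} (h : CompIn X P) (h' : CompIn X Q) :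
    CompIn X fun a => P a ∧ Q a :=
  ⟨h.1.and h'.1, (h.2.or h'.2).of_iff fun _ => not_and_or.symm⟩

theorem CompIn.or {P Q : α → Prop} (h : CompIn X P) (h' : CompIn X Q) :
    CompIn X fun a => P a ∨ Q a :=
  ⟨h.1.or h'.1, (h.2.and h'.2).of_iff fun _ => not_or.symm⟩

theorem CompIn.ball {P : α × ℕ → Prop} (h : CompIn X P) {n : α → ℕ} (hn : Computable n) :
    CompIn X fun a => ∀ k < n a, P (a, k) := by
  refine ⟨h.1.ball hn, (CeIn.bex (P := fun q => ¬ P q) h.2 hn).of_iff fun a => ?_⟩
  constructor
  · rintro ⟨k, hk, h1⟩ h2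
    exact h1 (h2 k hk)
  · intro h1
    by_contra h2
    exact h1 fun k hk => by_contra fun h3 => h2 ⟨k, hk, h3⟩

theorem CompIn.bex {P : α × ℕ → Prop} (h : CompIn X P) {n : α → ℕ} (hn : Computable n) :
    CompIn X fun a => ∃ k < n a, P (a, k) := by
  refine ⟨h.1.bex hn, (CeIn.ball (P := fun q => ¬ P q) h.2 hn).of_iff fun a => ?_⟩
  constructor
  · rintro h1 ⟨k, hk, h2⟩
    exact h1 k hk h2
  · exact fun h1 k hk h2 => h1 ⟨k, hk, h2⟩

theorem CompIn.comp {α β : Type*} [Primcodable α] [Primcodable β] {P : β → Prop}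
    (h : CompIn X P) {f : α → β} (hf : Computable f) : CompIn X fun a => P (f a) :=
  ⟨h.1.comp hf, CeIn.comp (P := fun b => ¬ P b) h.2 hf⟩

/-- A function with an enumerable graph composed with a predicate. -/
theorem CompIn.of_graph [Denumerable β] {f : α → β}
    (hf : CeIn X fun q : α × β => f q.1 = q.2) {P : α × β → Prop} (hP : CompIn X P) :
    CompIn X fun a => P (a, f a) := by
  refine ⟨(CeIn.existsD (P := fun q : α × β => f q.1 = q.2 ∧ P q) (hf.and hP.1)).of_iff fun a => ?_,
    (CeIn.existsD (P := fun q : α × β => f q.1 = q.2 ∧ ¬ P q) (hf.and hP.2)).of_iff fun a => ?_⟩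
  · constructor
    · rintro ⟨b, hb, h1⟩
      have hb' : f a = b := hb
      rw [hb']
      exact h1
    · exact fun h1 => ⟨f a, rfl, h1⟩
  · constructor
    · rintro ⟨b, hb, h1⟩
      have hb' : f a = b := hb
      show ¬ P (a, f a)
      rw [hb']
      exact h1
    · exact fun h1 => ⟨f a, rfl, h1⟩

private theorem re_of_ceIn {P : α → Prop} (h : CeIn (fun _ => false) P) : REPred P := by
  obtain ⟨R, hR, h⟩ := h
  have h1 : Computable₂ fun (a : α) (m : ℕ) => R a ((List.range m).map fun _ => false) := by
    refine hR.comp Computable.fst ?_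
    have h1 : Primrec fun s : ℕ => (List.range s).map fun _ => false :=
      Primrec.list_map Primrec.list_range (Primrec.const false).to₂
    exact h1.to_comp.comp Computable.snd
  have h2 := (Partrec.rfind (p := fun (a : α) (m : ℕ) =>
    (Part.some (R a ((List.range m).map fun _ => false)) : Part Bool)) h1.partrec₂).dom_re
  refine h2.of_eq fun a => ?_
  rw [h a, Nat.rfind_dom']
  constructor
  · rintro ⟨n, hn, -⟩
    exact ⟨n, (Part.mem_some_iff.1 hn).symm⟩
  · rintro ⟨n, hn⟩
    exact ⟨n, Part.mem_some_iff.2 hn.symm, fun _ => trivial⟩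

/-- Post's theorem (`ComputablePred.computable_iff_re_compl_re'`). -/
theorem comp_of_compIn_empty {P : α → Prop} (h : CompIn (fun _ => false) P) :
    ComputablePred P :=
  ComputablePred.computable_iff_re_compl_re'.2 ⟨re_of_ceIn h.1, re_of_ceIn h.2⟩

theorem JumpLe.limDec {α : Type*} [Denumerable α] (hX : JumpLe X Y) {P : α → Prop}
    (h : CeIn X P) : LimDecIn Y P := by
  obtain ⟨G, hG, h1⟩ := hX (fun n => P (Denumerable.ofNat α n)) (h.comp (Computable.ofNat α))
  refine ⟨fun q => G (Encodable.encode q.1, q.2), ?_, fun a => ?_⟩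
  · exact hG.comp (f := fun q : α × ℕ => (Encodable.encode q.1, q.2))
      (Computable.pair (Computable.encode.comp Computable.fst) Computable.snd)
  · obtain ⟨s₀, hs⟩ := h1 (Encodable.encode a)
    refine ⟨s₀, fun s h2 => (hs s h2).trans ?_⟩
    show P (Denumerable.ofNat α (Encodable.encode a)) ↔ P a
    rw [Denumerable.ofNat_encode]

/-- Lowness in the form of `Low`. -/
theorem jumpLe_empty_iff : JumpLe X (fun _ => false) ↔ Low X := by
  constructor
  · intro h P hP
    obtain ⟨G, hG, h1⟩ := h P hP
    obtain ⟨f, hf, hfG⟩ := comp_decide (comp_of_compIn_empty hG)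
    refine ⟨fun a s => f (a, s), hf, fun a => ?_⟩
    obtain ⟨s₀, hs⟩ := h1 a
    exact ⟨s₀, fun s h2 => (hfG (a, s)).trans (hs s h2)⟩
  · intro h P hP
    obtain ⟨g, hg, h1⟩ := h P hP
    refine ⟨fun q => g q.1 q.2 = true, compIn_of_comp (compPred_of (f := fun q : ℕ × ℕ => g q.1 q.2)
      hg fun _ => Iff.rfl) _, fun a => ?_⟩
    obtain ⟨s₀, hs⟩ := h1 a
    exact ⟨s₀, fun s h2 => hs s h2⟩

end Pool.Agent.H97.EM
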