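import Pool.Agent.H97.EM.Rel.Tab
import Pool.Agent.H97.EM.Inj.Cmp2

/-! Finite injury construction: the run with a table is computable, uniformly in the table. -/

namespace Pool.Agent.H97.EM.Inj

open Pool.Agent.H97.EM Classical

variable {d : Dat}

private theorem rcp_comp {α β : Type*} [Primcodable α] [Primcodable β] {p : β → Prop}
    (hp : ComputablePred p) {f : α → β} (hf : Computable f) : ComputablePred fun a => p (f a) := by
  obtain ⟨g, hg, hg'⟩ := comp_decide hp
  exact compPred_of (hg.comp hf) fun a => hg' (f a)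

private theorem rcp_and {α : Type*} [Primcodable α] {p q : α → Prop} (hp : ComputablePred p)
    (hq : ComputablePred q) : ComputablePred fun a => p a ∧ q a := by
  obtain ⟨f, hf, hf'⟩ := comp_decide hp
  obtain ⟨g, hg, hg'⟩ := comp_decide hq
  refine compPred_of (f := fun a => f a && g a) (Primrec.and.to_comp.comp hf hg) fun a => ?_
  rw [Bool.and_eq_true, hf', hg']

private theorem rcp_iff {α : Type*} [Primcodable α] {p q : α → Prop} (hp : ComputablePred p)
    (hq : ComputablePred q) : ComputablePred fun a => (p a ↔ q a) := by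
  obtain ⟨f, hf, hf'⟩ := comp_decide hp
  obtain ⟨g, hg, hg'⟩ := comp_decide hq
  refine compPred_of (f := fun a => f a == g a) (Primrec.beq.to_comp.comp hf hg) fun a => ?_
  rw [beq_iff_eq, Bool.eq_iff_iff, hf', hg']

private theorem rcp_eq {α β : Type*} [Primcodable α] [Primcodable β] {f g : α → β}
    (hf : Computable f) (hg : Computable g) : ComputablePred fun a => f a = g a := by
  refine compPred_of (f := fun a => Encodable.encode (f a) == Encodable.encode (g a))
    (Primrec.beq.to_comp.comp (Computable.encode.comp hf) (Computable.encode.comp hg)) fun a => ?_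
  rw [beq_iff_eq]
  exact ⟨fun h => Encodable.encode_injective h, fun h => by rw [h]⟩

private theorem rtk_comp {α : Type*} [Primcodable α] {f : α → ℕ} {u : α → List ℕ}
    (hf : Computable f) (hu : Computable u) : Computable fun a => (u a).take (f a) :=
  (Primrec.list_take (α := ℕ)).to_comp.comp hf hu

private theorem rlast_comp : Computable fun u : List ℕ => u.getLast? := by
  have h : Primrec fun u : List ℕ => u.reverse.head? :=
    Primrec.list_head?.comp Primrec.list_reverse
  exact (h.of_eq fun u => List.head?_reverse).to_comp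

private theorem rexs_comp {α : Type*} [Primcodable α] {f g : α → ℕ} {h : α → Fml}
    (hf : Computable f) (hg : Computable g) (hh : Computable h) :
    Computable fun a => exs (f a) (g a) (h a) := by
  have h1 : Computable fun a => (f a, g a, h a) := hf.pair (hg.pair hh)
  exact Computable.comp (g := fun a => (f a, g a, h a)) exs_primrec.to_comp h1

private theorem rcmp_find_congr {l : List ℕ} {P Q : ℕ → Bool} (h : ∀ k, P k = Q k) :
    l.find? P = l.find? Q := by
  have : P = Q := funext h
  rw [this]

/-- Same proofs as in `Inj.Cmp1` and `Inj.Cmp2`, with the additional argument `γ`. -/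
theorem test_dT_comp (hB : CompStr d.B) :
    ComputablePred fun q : List (List ℕ) × (ℕ × ℕ × List Bool × ℕ) × Cfg × Cand =>
      Test (dT d q.1) q.2.1.1 q.2.1.2.1 q.2.1.2.2.1 q.2.1.2.2.2 q.2.2.1 q.2.2.2 := by

  have hs : Computable fun q : List (List ℕ) × (ℕ × ℕ × List Bool × ℕ) × Cfg × Cand => q.2.1.1 :=
    Computable.fst.comp (Computable.fst.comp Computable.snd)
  have hl : Computable fun q : List (List ℕ) × (ℕ × ℕ × List Bool × ℕ) × Cfg × Cand => q.2.1.2.1 :=
    Computable.fst.comp (Computable.snd.comp (Computable.fst.comp Computable.snd))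
  have hσ : Computable fun q : List (List ℕ) × (ℕ × ℕ × List Bool × ℕ) × Cfg × Cand => q.2.1.2.2.1 :=
    Computable.fst.comp (Computable.snd.comp (Computable.snd.comp (Computable.fst.comp Computable.snd)))
  have hn : Computable fun q : List (List ℕ) × (ℕ × ℕ × List Bool × ℕ) × Cfg × Cand => q.2.1.2.2.2 :=
    Computable.snd.comp (Computable.snd.comp (Computable.snd.comp (Computable.fst.comp Computable.snd)))
  have hc : Computable fun q : List (List ℕ) × (ℕ × ℕ × List Bool × ℕ) × Cfg × Cand => q.2.2.1 :=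
    Computable.fst.comp (Computable.snd.comp Computable.snd)
  have hx : Computable fun q : List (List ℕ) × (ℕ × ℕ × List Bool × ℕ) × Cfg × Cand => q.2.2.2 :=
    Computable.snd.comp (Computable.snd.comp Computable.snd)
  have hc2 : Computable fun q : List (List ℕ) × (ℕ × ℕ × List Bool × ℕ) × Cfg × Cand => q.2.2.1.2 :=
    Computable.snd.comp hc
  have hcl : Computable fun q : List (List ℕ) × (ℕ × ℕ × List Bool × ℕ) × Cfg × Cand => q.2.2.1.2.length :=
    Computable.list_length.comp hc2
  have hc3 : Computable fun q : List (List ℕ) × (ℕ × ℕ × List Bool × ℕ) × Cfg × Cand => q.2.2.1.1.2.1 :=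
    Computable.fst.comp (Computable.snd.comp (Computable.fst.comp hc))
  have hx1 : Computable fun q : List (List ℕ) × (ℕ × ℕ × List Bool × ℕ) × Cfg × Cand => q.2.2.2.1 :=
    Computable.fst.comp hx
  have hx2 : Computable fun q : List (List ℕ) × (ℕ × ℕ × List Bool × ℕ) × Cfg × Cand => q.2.2.2.2.1 :=
    Computable.fst.comp (Computable.snd.comp hx)
  have hx3 : Computable fun q : List (List ℕ) × (ℕ × ℕ × List Bool × ℕ) × Cfg × Cand => q.2.2.2.2.2 :=
    Computable.snd.comp (Computable.snd.comp hx)
  have hxt : Computable fun q : List (List ℕ) × (ℕ × ℕ × List Bool × ℕ) × Cfg × Cand =>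
      q.2.2.2.2.2.take q.2.2.1.2.length := rtk_comp hcl hx3
  have hidx : Computable fun q : List (List ℕ) × (ℕ × ℕ × List Bool × ℕ) × Cfg × Cand => idx q.2.1.2.1 q.2.2.2 :=
    idx_comp.comp hl hx
  have hbd : Computable fun q : List (List ℕ) × (ℕ × ℕ × List Bool × ℕ) × Cfg × Cand => bd q.2.1.2.1 q.2.2.2 :=
    bd_comp.comp hl hx
  have hgg : Computable fun q : List (List ℕ) × (ℕ × ℕ × List Bool × ℕ) × Cfg × Cand =>
      q.1.getD (Nat.pair (bd q.2.1.2.1 q.2.2.2) q.2.1.1) [] :=
    (Primrec.list_getD ([] : List ℕ)).to_comp.comp Computable.fst (Primrec₂.natPair.to_comp.comp hbd hs)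
  have hpk : Computable fun q : List (List ℕ) × (ℕ × ℕ × List Bool × ℕ) × Cfg × Cand =>
      pick (q.1.getD (Nat.pair (bd q.2.1.2.1 q.2.2.2) q.2.1.1) []) (idx q.2.1.2.1 q.2.2.2) :=
    pick_primrec.to_comp.comp hgg hidx
  have hbb : Computable fun q : List (List ℕ) × (ℕ × ℕ × List Bool × ℕ) × Cfg × Cand => d.bb ++ q.2.2.2.2.2 :=
    Computable.list_append.comp (Computable.const d.bb) hx3
  have hsub : Computable fun q : List (List ℕ) × (ℕ × ℕ × List Bool × ℕ) × Cfg × Cand =>
      q.2.1.2.2.2 - q.2.2.1.2.length := Primrec.nat_sub.to_comp.comp hn hcl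
  have hcs : Computable fun q : List (List ℕ) × (ℕ × ℕ × List Bool × ℕ) × Cfg × Cand => cs q.2.1.2.2.1 :=
    cs_primrec.to_comp.comp hσ
  have hexs : Computable fun q : List (List ℕ) × (ℕ × ℕ × List Bool × ℕ) × Cfg × Cand =>
      exs q.2.2.1.2.length (q.2.1.2.2.2 - q.2.2.1.2.length) (cs q.2.1.2.2.1) :=
    rexs_comp hcl hsub hcs
  have t1 : ComputablePred fun q : List (List ℕ) × (ℕ × ℕ × List Bool × ℕ) × Cfg × Cand =>
      q.2.2.2.1.length = d.bb.length :=
    rcp_eq (Computable.list_length.comp hx1) (Computable.const d.bb.length)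
  have t2 : ComputablePred fun q : List (List ℕ) × (ℕ × ℕ × List Bool × ℕ) × Cfg × Cand =>
      q.2.2.2.2.1.length = q.2.2.1.2.length := rcp_eq (Computable.list_length.comp hx2) hcl
  have t3 : ComputablePred fun q : List (List ℕ) × (ℕ × ℕ × List Bool × ℕ) × Cfg × Cand =>
      q.2.2.2.2.2.length = q.2.2.1.2.length + 1 :=
    rcp_eq (Computable.list_length.comp hx3) (Computable.succ.comp hcl)
  have t4 : ComputablePred fun q : List (List ℕ) × (ℕ × ℕ × List Bool × ℕ) × Cfg × Cand =>
      q.2.2.2.2.1.take q.2.2.1.1.2.1.length = q.2.2.1.1.2.1 :=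
    rcp_eq (rtk_comp (Computable.list_length.comp hc3) hx2) hc3
  have t5 : ComputablePred fun q : List (List ℕ) × (ℕ × ℕ × List Bool × ℕ) × Cfg × Cand =>
      q.2.2.2.2.1.getLast? = some q.2.1.2.1 :=
    rcp_eq (rlast_comp.comp hx2) (Computable.option_some.comp hl)
  have t6 : ComputablePred fun q : List (List ℕ) × (ℕ × ℕ × List Bool × ℕ) × Cfg × Cand =>
      Agr d.B q.2.1.1 (q.2.2.2.2.2.take q.2.2.1.2.length) q.2.2.1.2 :=
    rcp_comp (agr_comp hB) (hs.pair (hxt.pair hc2))
  have t7 : ComputablePred fun q : List (List ℕ) × (ℕ × ℕ × List Bool × ℕ) × Cfg × Cand =>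
      (q.1.getD (Nat.pair (bd q.2.1.2.1 q.2.2.2) q.2.1.1) []).length = bd q.2.1.2.1 q.2.2.2 :=
    rcp_eq (Computable.list_length.comp hgg) hbd
  have t8 : ComputablePred fun q : List (List ℕ) × (ℕ × ℕ × List Bool × ℕ) × Cfg × Cand =>
      Agr d.B q.2.1.1 (pick (q.1.getD (Nat.pair (bd q.2.1.2.1 q.2.2.2) q.2.1.1) []) (idx q.2.1.2.1 q.2.2.2))
        (d.bb ++ q.2.2.2.2.2) :=
    rcp_comp (agr_comp hB) (hs.pair (hpk.pair hbb))
  have t9 : ComputablePred fun q : List (List ℕ) × (ℕ × ℕ × List Bool × ℕ) × Cfg × Cand =>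
      Ev d.B (exs q.2.2.1.2.length (q.2.1.2.2.2 - q.2.2.1.2.length) (cs q.2.1.2.2.1))
        (q.2.2.2.2.2.take q.2.2.1.2.length) :=
    ev_comp hB hexs hxt
  exact rcp_and (rcp_and t1 (rcp_and t2 t3)) (rcp_and (rcp_and t4 t5) (rcp_and t6
    (rcp_and (rcp_and t7 t8) t9)))

theorem cnd_dT_comp (hB : CompStr d.B) :
    Computable fun q : List (List ℕ) × (ℕ × ℕ × List Bool × ℕ) × Cfg =>
      cnd (dT d q.1) q.2.1.1 q.2.1.2.1 q.2.1.2.2.1 q.2.1.2.2.2 q.2.2 := by
  obtain ⟨f, hf, hf'⟩ := comp_decide (test_dT_comp (d := d) hB)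
  have h1 : Computable₂ fun (q : List (List ℕ) × (ℕ × ℕ × List Bool × ℕ) × Cfg) (k : ℕ) =>
      f (q.1, q.2.1, q.2.2, Denumerable.ofNat Cand k) := by
    have h2 : Computable fun r : (List (List ℕ) × (ℕ × ℕ × List Bool × ℕ) × Cfg) × ℕ =>
        (r.1.1, r.1.2.1, r.1.2.2, Denumerable.ofNat Cand r.2) :=
      (Computable.fst.comp Computable.fst).pair
        ((Computable.fst.comp (Computable.snd.comp Computable.fst)).pair
        ((Computable.snd.comp (Computable.snd.comp Computable.fst)).pair
        ((Computable.ofNat Cand).comp Computable.snd)))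
    exact hf.comp h2
  have h3 : Computable fun q : List (List ℕ) × (ℕ × ℕ × List Bool × ℕ) × Cfg => q.2.1.1 + 1 :=
    Computable.succ.comp (Computable.fst.comp (Computable.fst.comp Computable.snd))
  refine (bfind_comp h1 h3).of_eq fun q => ?_
  unfold cnd
  congr 1
  funext k
  rw [Bool.eq_iff_iff, hf', decide_eq_true_iff]

theorem lev_dT_comp (hB : CompStr d.B) :
    Computable fun q : List (List ℕ) × ℕ × St => lev (dT d q.1) q.2.1 q.2.2 := by
  have hγ : Computable fun x : (List (List ℕ) × ℕ × St) × ℕ => x.1.1 :=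
    Computable.fst.comp Computable.fst
  have hs : Computable fun x : (List (List ℕ) × ℕ × St) × ℕ => x.1.2.1 :=
    Computable.fst.comp (Computable.snd.comp Computable.fst)
  have hst : Computable fun x : (List (List ℕ) × ℕ × St) × ℕ => x.1.2.2 :=
    Computable.snd.comp (Computable.snd.comp Computable.fst)
  have hstk : Computable fun x : (List (List ℕ) × ℕ × St) × ℕ => x.1.2.2.1 :=
    Computable.fst.comp hst
  have hsig : Computable fun x : (List (List ℕ) × ℕ × St) × ℕ => x.1.2.2.2.1 :=
    Computable.fst.comp (Computable.snd.comp hst)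
  have hn : Computable fun x : (List (List ℕ) × ℕ × St) × ℕ => x.1.2.2.2.2 :=
    Computable.snd.comp (Computable.snd.comp hst)
  have hc : Computable fun x : (List (List ℕ) × ℕ × St) × ℕ => x.1.2.2.1.getD x.2 dft :=
    (Primrec.list_getD dft).to_comp.comp hstk Computable.snd
  have hc' : Computable fun x : (List (List ℕ) × ℕ × St) × ℕ => x.1.2.2.1.getD (x.2 + 1) dft :=
    (Primrec.list_getD dft).to_comp.comp hstk (Computable.succ.comp Computable.snd)
  have hp : Computable fun x : (List (List ℕ) × ℕ × St) × ℕ =>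
      (x.1.1, (x.1.2.1, x.2, x.1.2.2.2.1, x.1.2.2.2.2), x.1.2.2.1.getD x.2 dft) :=
    Computable.pair hγ (Computable.pair (Computable.pair hs
      (Computable.pair Computable.snd (Computable.pair hsig hn))) hc)
  have h1 := (cnd_dT_comp (d := d) hB).comp hp
  have h2 : Computable fun x : (List (List ℕ) × ℕ × St) × ℕ =>
      some (Encodable.encode (x.1.2.2.1.getD (x.2 + 1) dft).1) :=
    Computable.option_some.comp (Computable.encode.comp (Computable.fst.comp hc'))
  have h3 : Computable fun p : Option ℕ × Option ℕ => !decide (p.1 = p.2) :=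
    Primrec.not.to_comp.comp (Primrec.eq (α := Option ℕ)).decide.to_comp
  have h4 : Computable₂ fun (q : List (List ℕ) × ℕ × St) (l : ℕ) =>
      !decide (cnd (dT d q.1) q.2.1 l q.2.2.2.1 q.2.2.2.2 (q.2.2.1.getD l dft) =
        some (Encodable.encode (q.2.2.1.getD (l + 1) dft).1)) := by
    have h := h3.comp (Computable.pair h1 h2)
    exact h
  have hlen : Computable fun q : List (List ℕ) × ℕ × St => q.2.2.1.length - 1 :=
    Primrec.nat_sub.to_comp.comp
      (Computable.list_length.comp (Computable.fst.comp (Computable.snd.comp Computable.snd)))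
      (Computable.const 1)
  refine (Primrec.option_getD.to_comp.comp (bfind_comp h4 hlen) hlen).of_eq ?_
  intro q
  unfold lev
  rw [rcmp_find_congr]
  intro k
  rw [Bool.eq_iff_iff]
  simp

theorem step_dT_comp (hB : CompStr d.B) :
    ∃ f : List (List ℕ) × ℕ × St → St, Computable f ∧
      ∀ γ s st, Inv d st → f (γ, s, st) = step (dT d γ) s st := by
  obtain ⟨w, hw, hw'⟩ := wit_comp hB
  -- the new configuration with the computable witness
  obtain ⟨nc, hncdef⟩ : ∃ nc : (List Bool × ℕ × ℕ × Cand) → Cfg, nc = fun q =>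
    (q.2.2.2, q.2.2.2.2.2.take q.2.2.1 ++ w q ++ q.2.2.2.2.2.drop q.2.2.1) := ⟨_, rfl⟩
  have hm : Computable fun q : List Bool × ℕ × ℕ × Cand => q.2.2.1 :=
    Computable.fst.comp (Computable.snd.comp Computable.snd)
  have hcd : Computable fun q : List Bool × ℕ × ℕ × Cand => q.2.2.2 :=
    Computable.snd.comp (Computable.snd.comp Computable.snd)
  have hx : Computable fun q : List Bool × ℕ × ℕ × Cand => q.2.2.2.2.2 :=
    Computable.snd.comp (Computable.snd.comp hcd)
  have hnc : Computable nc := by
    rw [hncdef]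
    exact Computable.pair hcd (Computable.list_append.comp (Computable.list_append.comp
      (Primrec.list_take.to_comp.comp hm hx) hw) (Primrec.list_drop.to_comp.comp hm hx))
  -- push
  obtain ⟨pu, hpudef⟩ : ∃ pu : List Cfg × List Bool × ℕ × ℕ × Cand → St, pu = fun q =>
    (q.1 ++ [nc q.2], dec d (q.1 ++ [nc q.2]) q.2.1 q.2.2.1
      (decide (Ev d.B (Denumerable.ofNat Fml q.2.1.length) (nc q.2).2)), q.2.2.1 + 1) := ⟨_, rfl⟩
  have hq2 : Computable fun q : List Cfg × List Bool × ℕ × ℕ × Cand => nc q.2 :=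
    hnc.comp Computable.snd
  have hstk : Computable fun q : List Cfg × List Bool × ℕ × ℕ × Cand => q.1 ++ [nc q.2] :=
    Computable.list_concat.comp Computable.fst hq2
  have hsig : Computable fun q : List Cfg × List Bool × ℕ × ℕ × Cand => q.2.1 :=
    Computable.fst.comp Computable.snd
  have hn : Computable fun q : List Cfg × List Bool × ℕ × ℕ × Cand => q.2.2.1 :=
    Computable.fst.comp (Computable.snd.comp Computable.snd)
  have hfm := (Primrec.ofNat Fml).to_comp.comp (Computable.list_length.comp hsig)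
  have hsn := Computable.snd.comp hq2
  obtain ⟨b, hb, hb'⟩ := comp_decide (ev_comp hB
    (f := fun q : List Cfg × List Bool × ℕ × ℕ × Cand => Denumerable.ofNat Fml q.2.1.length)
    (u := fun q : List Cfg × List Bool × ℕ × ℕ × Cand => (nc q.2).2) hfm hsn)
  have hpu : Computable pu := by
    have h0 := (dec_comp hB).comp (Computable.pair (Computable.pair hstk hsig)
      (Computable.pair hn hb))
    have h1 := Computable.pair hstk (Computable.pair h0 (Computable.succ.comp hn))
    refine h1.of_eq fun q => ?_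
    rw [hpudef]
    have h2 : b q = decide (Ev d.B (Denumerable.ofNat Fml q.2.1.length) (nc q.2).2) := by
      rw [Bool.eq_iff_iff, hb', decide_eq_true_eq]
    show (q.1 ++ [nc q.2], dec d (q.1 ++ [nc q.2]) q.2.1 q.2.2.1 (b q), q.2.2.1 + 1) =
      (q.1 ++ [nc q.2], dec d (q.1 ++ [nc q.2]) q.2.1 q.2.2.1
      (decide (Ev d.B (Denumerable.ofNat Fml q.2.1.length) (nc q.2).2)), q.2.2.1 + 1)
    rw [h2]
  -- the step
  have hlev : Computable fun q : List (List ℕ) × ℕ × St => lev (dT d q.1) q.2.1 q.2.2 :=
    lev_dT_comp hB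
  have hstk2 : Computable fun q : List (List ℕ) × ℕ × St => q.2.2.1 :=
    Computable.fst.comp (Computable.snd.comp Computable.snd)
  have hc : Computable fun q : List (List ℕ) × ℕ × St =>
      q.2.2.1.getD (lev (dT d q.1) q.2.1 q.2.2) dft :=
    (Primrec.list_getD dft).to_comp.comp hstk2 hlev
  have hsg : Computable fun q : List (List ℕ) × ℕ × St => q.2.2.2.1 :=
    Computable.fst.comp (Computable.snd.comp (Computable.snd.comp Computable.snd))
  have hnn : Computable fun q : List (List ℕ) × ℕ × St => q.2.2.2.2 :=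
    Computable.snd.comp (Computable.snd.comp (Computable.snd.comp Computable.snd))
  have ho := (cnd_dT_comp (d := d) hB).comp (Computable.pair
    (Computable.fst (α := List (List ℕ)) (β := ℕ × St)) (Computable.pair (Computable.pair
    (Computable.fst.comp (Computable.snd (α := List (List ℕ)) (β := ℕ × St)))
    (Computable.pair hlev (Computable.pair hsg hnn))) hc))
  have htk : Computable fun q : List (List ℕ) × ℕ × St =>
      q.2.2.1.take (lev (dT d q.1) q.2.1 q.2.2 + 1) :=
    Primrec.list_take.to_comp.comp (Computable.succ.comp hlev) hstk2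
  have hnone : Computable fun q : List (List ℕ) × ℕ × St =>
      ((q.2.2.1.take (lev (dT d q.1) q.2.1 q.2.2 + 1), q.2.2.2.1, q.2.2.2.2) : St) :=
    Computable.pair htk (Computable.snd.comp (Computable.snd.comp Computable.snd))
  have hsome : Computable₂ fun (q : List (List ℕ) × ℕ × St) (k : ℕ) =>
      pu (q.2.2.1.take (lev (dT d q.1) q.2.1 q.2.2 + 1), q.2.2.2.1, q.2.2.2.2,
        (q.2.2.1.getD (lev (dT d q.1) q.2.1 q.2.2) dft).2.length, Denumerable.ofNat Cand k) := by
    have hF := Computable.fst (α := List (List ℕ) × ℕ × St) (β := ℕ)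
    have hS := Computable.snd (α := List (List ℕ) × ℕ × St) (β := ℕ)
    have e1 := hpu.comp (Computable.pair (htk.comp hF) (Computable.pair (hsg.comp hF)
      (Computable.pair (hnn.comp hF) (Computable.pair
        (Computable.list_length.comp (Computable.snd.comp (hc.comp hF)))
          ((Primrec.ofNat Cand).to_comp.comp hS)))))
    exact e1
  have hcas := Computable.option_casesOn ho hnone hsome
  refine ⟨_, hcas, ?_⟩
  intro γ s st hI
  have hll := lev_lt (d := dT d γ) (s := s) hI.ne
  have hcm : st.1.getD (lev (dT d γ) s st) dft ∈ st.1 := by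
    rw [List.getD_eq_getElem _ _ hll]
    exact List.getElem_mem hll
  unfold step
  cases hcn : cnd (dT d γ) s (lev (dT d γ) s st) st.2.1 st.2.2
      (st.1.getD (lev (dT d γ) s st) dft) with
  | none => simp only
  | some k =>
    simp only
    obtain ⟨⟨-, -, h2⟩, -, -, -, h3⟩ := test_of_cnd hcn
    have hm0 : 0 < (st.1.getD (lev (dT d γ) s st) dft).2.length :=
      List.length_pos_iff.2 (hI.shp _ hcm).ne
    have h4 := hw' st.2.1 st.2.2 _ (Denumerable.ofNat Cand k) hm0 (by omega) h3
    have h5 : nc (st.2.1, st.2.2, (st.1.getD (lev (dT d γ) s st) dft).2.length,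
        Denumerable.ofNat Cand k) = newc d st.2.1 st.2.2
        (st.1.getD (lev (dT d γ) s st) dft).2.length (Denumerable.ofNat Cand k) := by
      rw [hncdef]
      unfold newc
      rw [← h4]
    rw [hpudef]
    show _ = push d _ _ _ _ _
    unfold push
    rw [← h5]

theorem run_dT_comp (hB : CompStr d.B) :
    Computable fun q : List (List ℕ) × ℕ => run (dT d q.1) q.2 := by
  obtain ⟨f, hf, hf'⟩ := step_dT_comp (d := d) hB
  have h1 : Computable fun q : List (List ℕ) × ℕ =>
      (Nat.rec (motive := fun _ => St) ([c0 d], [], 1)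
      (fun k ih => f (q.1, k, ih)) q.2 : St) :=
    Computable.nat_rec (f := fun q : List (List ℕ) × ℕ => q.2)
      (g := fun _ => (([c0 d], [], 1) : St))
      (h := fun (q : List (List ℕ) × ℕ) (r : ℕ × St) => f (q.1, r)) Computable.snd
      (Computable.const _)
      (hf.comp (Computable.pair (Computable.fst.comp Computable.fst) Computable.snd)).to₂
  refine h1.of_eq fun q => ?_
  obtain ⟨γ, s⟩ := q
  show (Nat.rec (motive := fun _ => St) ([c0 d], [], 1) (fun k ih => f (γ, k, ih)) s : St) =
    run (dT d γ) s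
  induction s with
  | zero => rfl
  | succ s ih =>
    show f (γ, s, _) = step (dT d γ) s (run (dT d γ) s)
    have hI := inv_run (d := dT d γ) s
    rw [ih, hf' γ s _ ⟨hI.ne, hI.sig, hI.shp, hI.le, hI.cns⟩]

end Pool.Agent.H97.EM.Inj
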