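import Pool.Agent.H97.EM.Low.Def

/-! Comparison of jumps. -/

namespace Pool.Agent.H97.EM

/-- `P` is the limit of a function which is computable in `Y`; by the limit lemma this says that
`P` is computable in the jump `Y'`. -/
def LimDecIn {α : Type*} [Primcodable α] (Y : ℕ → Bool) (P : α → Prop) : Prop :=
  ∃ G : α × ℕ → Prop, CompIn Y G ∧ ∀ a, ∃ s₀, ∀ s, s₀ ≤ s → (G (a, s) ↔ P a)

/-- `X' ≤ Y'`: every set which is computably enumerable in `X` is computable in the jump
of `Y`. -/
def JumpLe (X Y : ℕ → Bool) : Prop := ∀ P : ℕ → Prop, CeIn X P → LimDecIn Y P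

end Pool.Agent.H97.EM
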