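import Pool.Agent.H97.EM.Rel.Bas
import Pool.Agent.H97.EM.TE
import Pool.Agent.H97.EM.Prim
import Pool.Agent.H97.EM.FvP

/-! From an enumeration with repetitions to a copy, relative form. -/

namespace Pool.Agent.H97.EM

private theorem cp_of {α : Type*} [Primcodable α] {p : α → Prop} (h : PrimrecPred p) : ComputablePred p := by
  obtain ⟨D, hD⟩ := h
  exact ⟨D, hD.to_comp⟩

/-- the number of entries `1` -/
private def cnt (v : List ℕ) : ℕ := v.foldr (fun b n => if b = 1 then n + 1 else n) 0

private theorem cnt_primrec : Primrec cnt := by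
  have h : Primrec₂ fun (_ : List ℕ) (q : ℕ × ℕ) => if q.1 = 1 then q.2 + 1 else q.2 := by
    refine Primrec.ite ?_ ?_ ?_
    · exact Primrec.eq.comp (Primrec.fst.comp Primrec.snd) (Primrec.const 1)
    · exact Primrec.succ.comp (Primrec.snd.comp Primrec.snd)
    · exact Primrec.snd.comp Primrec.snd
  exact Primrec.list_foldr Primrec.id (Primrec.const 0) h

private theorem cnt_eq (v : List ℕ) : ∀ (p : ℕ → Prop) [DecidablePred p],
    (∀ i < v.length, (v.getD i 0 = 1 ↔ p i)) → cnt v = Nat.count p v.length := by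
  induction v with
  | nil =>
    intro p _ _
    rw [List.length_nil, Nat.count_zero]
    rfl
  | cons a v ih =>
    intro p _ h
    have h1 : cnt v = Nat.count (fun k => p (k + 1)) v.length := by
      refine ih (fun k => p (k + 1)) fun i hi => ?_
      have := h (i + 1) (by rw [List.length_cons]; omega)
      rwa [List.getD_cons_succ] at this
    have h2 := h 0 (by rw [List.length_cons]; omega)
    rw [List.getD_cons_zero] at h2
    rw [List.length_cons, Nat.count_succ', ← h1]
    show (if a = 1 then cnt v + 1 else cnt v) = _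
    by_cases ha : a = 1
    · rw [if_pos ha, if_pos (h2.1 ha)]
    · rw [if_neg ha, if_neg (fun h3 => ha (h2.2 h3)), add_zero]

/-- The increasing enumeration `new` of the indices `i` with `e i ≠ e j` for all `j < i`. The
graph of `k ↦ (new 0, .., new k)` is enumerable in `Y`: a list `u` of length `k + 1` is the right
one iff `u_0 = 0`, the list is increasing, and for every `i ≤ u_k`: `i` is an entry iff
`e i ≠ e j` for all `j < i`. `e ∘ new` is bijective. -/
theorem exists_new {Y : ℕ → Bool} {N : Str} {e : ℕ → ℕ} (he : Function.Surjective e)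
    (h : CompIn Y fun φ : Fml => Sat N φ e) : ∃ new : ℕ → ℕ,
      Function.Bijective (e ∘ new) ∧ CeIn Y fun q : ℕ × ℕ => new q.1 = q.2 := by
  classical
  obtain ⟨isNew, hisNew⟩ : ∃ p : ℕ → Prop, ∀ i, p i ↔ ∀ j < i, ¬ e i = e j := ⟨_, fun _ => Iff.rfl⟩
  -- every value has a first index
  have first : ∀ y, ∃ n, isNew n ∧ e n = y := by
    intro y
    refine ⟨Nat.find (he y), ?_, Nat.find_spec (he y)⟩
    rw [hisNew]
    intro j hj hij
    exact Nat.find_min (he y) hj (hij.symm.trans (Nat.find_spec (he y)))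
  have hinf : ({i | isNew i} : Set ℕ).Infinite := by
    intro hfin
    have h1 : Set.univ ⊆ e '' {i | isNew i} := by
      intro y _
      obtain ⟨n, hn, hy⟩ := first y
      exact ⟨n, hn, hy⟩
    exact Set.infinite_univ ((hfin.image e).subset h1)
  have hgr : ∀ k m, Nat.nth isNew k = m ↔ isNew m ∧ Nat.count isNew m = k := by
    intro k m
    constructor
    · rintro rfl
      exact ⟨Nat.nth_mem_of_infinite hinf k, Nat.count_nth_of_infinite hinf k⟩
    · rintro ⟨h1, rfl⟩
      exact Nat.nth_count h1
  refine ⟨Nat.nth isNew, ⟨?_, ?_⟩, ?_⟩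
  · intro a b hab
    by_contra hne
    rcases lt_or_gt_of_ne hne with hlt | hlt
    · exact (hisNew _).1 (Nat.nth_mem_of_infinite hinf b) _ (Nat.nth_strictMono hinf hlt) hab.symm
    · exact (hisNew _).1 (Nat.nth_mem_of_infinite hinf a) _ (Nat.nth_strictMono hinf hlt) hab
  · intro y
    obtain ⟨n, hn, hy⟩ := first y
    refine ⟨Nat.count isNew n, ?_⟩
    show e (Nat.nth isNew (Nat.count isNew n)) = y
    rw [Nat.nth_count hn, hy]
  · -- the predicate isNew
    have hE : CompIn Y fun p : ℕ × ℕ => ¬ e p.1 = e p.2 :=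
      (h.comp (f := fun p : ℕ × ℕ => Fml.eq p.1 p.2) eq_primrec.to_comp).not
    have hI : CompIn Y isNew :=
      (hE.ball (n := fun i : ℕ => i) Computable.id).of_iff fun i => (hisNew i).symm
    have hA : CompIn Y fun q : ((ℕ × ℕ) × List ℕ) × ℕ => q.1.2.getD q.2 0 = 1 :=
      compIn_of_comp (cp_of (Primrec.eq.comp
        ((Primrec.list_getD 0).comp (Primrec.snd.comp Primrec.fst) Primrec.snd) (Primrec.const 1))) Y
    have hB : CompIn Y fun q : ((ℕ × ℕ) × List ℕ) × ℕ => isNew q.2 :=
      hI.comp (f := fun q : ((ℕ × ℕ) × List ℕ) × ℕ => q.2) Computable.snd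
    have hC : CompIn Y fun q : ((ℕ × ℕ) × List ℕ) × ℕ => (q.1.2.getD q.2 0 = 1 ↔ isNew q.2) :=
      ((hA.and hB).or (hA.not.and hB.not)).of_iff fun q => by tauto
    have hD : CompIn Y fun q : (ℕ × ℕ) × List ℕ => ∀ i < q.2.length, (q.2.getD i 0 = 1 ↔ isNew i) :=
      hC.ball (n := fun q : (ℕ × ℕ) × List ℕ => q.2.length) (Computable.list_length.comp Computable.snd)
    have hL : CompIn Y fun q : (ℕ × ℕ) × List ℕ => q.2.length = q.1.2 :=
      compIn_of_comp (cp_of (Primrec.eq.comp (Primrec.list_length.comp Primrec.snd)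
        (Primrec.snd.comp Primrec.fst))) Y
    have hK : CompIn Y fun q : (ℕ × ℕ) × List ℕ => cnt q.2 = q.1.1 :=
      compIn_of_comp (cp_of (Primrec.eq.comp (cnt_primrec.comp Primrec.snd)
        (Primrec.fst.comp Primrec.fst))) Y
    have hex : CeIn Y fun q : ℕ × ℕ => ∃ v : List ℕ, (v.length = q.2 ∧ cnt v = q.1) ∧
        ∀ i < v.length, (v.getD i 0 = 1 ↔ isNew i) :=
      CeIn.existsD (P := fun q : (ℕ × ℕ) × List ℕ => (q.2.length = q.1.2 ∧ cnt q.2 = q.1.1) ∧
        ∀ i < q.2.length, (q.2.getD i 0 = 1 ↔ isNew i)) ((hL.and hK).and hD).1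
    have hN : CeIn Y fun q : ℕ × ℕ => isNew q.2 :=
      hI.1.comp (f := fun q : ℕ × ℕ => q.2) Computable.snd
    refine (hN.and hex).of_iff fun q => ?_
    rw [hgr]
    refine and_congr_right fun _ => ?_
    constructor
    · rintro ⟨v, ⟨h1, h2⟩, h3⟩
      rw [← h1, ← h2, cnt_eq v isNew h3]
    · intro h1
      have h3 : ∀ i < ((List.range q.2).map fun i => if isNew i then 1 else 0).length,
          (((List.range q.2).map fun i => if isNew i then 1 else 0).getD i 0 = 1 ↔ isNew i) := by
        intro i hi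
        rw [List.getD_eq_getElem _ _ hi, List.getElem_map, List.getElem_range]
        by_cases hi' : isNew i
        · simp [hi']
        · simp [hi']
      refine ⟨(List.range q.2).map fun i => if isNew i then 1 else 0, ⟨by simp, ?_⟩, h3⟩
      rw [cnt_eq _ isNew h3, List.length_map, List.length_range, h1]

/-- `N' r l := N r (l.map (e ∘ new))`; `Holds N' φ l` iff the free variables are below `l.length`
and `Sat N (renc φ (l.map new)) e` (for `l = []` use any list); the graph of `l ↦ l.map new` is
enumerable. -/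
theorem enum_dec_rel {Y : ℕ → Bool} {N : Str} {e : ℕ → ℕ} (he : Function.Surjective e)
    (h : CompIn Y fun φ : Fml => Sat N φ e) :
    ∃ N', Iso N N' ∧ CompIn Y fun p : Fml × List ℕ => Holds N' p.1 p.2 := by
  obtain ⟨new, hbij, hnew⟩ := exists_new he h
  let E : Equiv.Perm ℕ := Equiv.ofBijective (e ∘ new) hbij
  have hE : ∀ x, E x = e (new x) := fun x => rfl
  let N' : Str := fun r l => N r (l.map E)
  have hiso : ∀ r l, N' r l ↔ N r (l.map E) := fun r l => Iff.rfl
  refine ⟨N', iso_symm ⟨E, hiso⟩, ?_⟩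
  -- the graph of the map
  have hg : CeIn Y fun q : (Fml × List ℕ) × List ℕ => q.1.2.map new = q.2 := by
    have h1 : CeIn Y fun q : ((Fml × List ℕ) × List ℕ) × ℕ => new (q.1.1.2.getD q.2 0) = q.1.2.getD q.2 0 := by
      refine hnew.comp (f := fun q : ((Fml × List ℕ) × List ℕ) × ℕ =>
        (q.1.1.2.getD q.2 0, q.1.2.getD q.2 0)) ?_
      exact (Primrec.pair ((Primrec.list_getD 0).comp (Primrec.snd.comp (Primrec.fst.comp Primrec.fst)) Primrec.snd)
        ((Primrec.list_getD 0).comp (Primrec.snd.comp Primrec.fst) Primrec.snd)).to_comp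
    have h2 : CeIn Y fun q : (Fml × List ℕ) × List ℕ => ∀ i < q.1.2.length,
        new (q.1.2.getD i 0) = q.2.getD i 0 :=
      h1.ball (n := fun q : (Fml × List ℕ) × List ℕ => q.1.2.length)
        (Computable.list_length.comp (Computable.snd.comp Computable.fst))
    have h3 : CompIn Y fun q : (Fml × List ℕ) × List ℕ => q.2.length = q.1.2.length :=
      compIn_of_comp (cp_of (Primrec.eq.comp (Primrec.list_length.comp Primrec.snd)
        (Primrec.list_length.comp (Primrec.snd.comp Primrec.fst)))) Y
    refine (h3.1.and h2).of_iff fun q => ?_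
    constructor
    · rintro ⟨h4, h5⟩
      refine List.ext_getElem (by rw [List.length_map]; exact h4.symm) fun i hi hi' => ?_
      have hi2 : i < q.1.2.length := by rwa [List.length_map] at hi
      have h6 := h5 i hi2
      rw [List.getD_eq_getElem _ _ hi2, List.getD_eq_getElem _ _ hi'] at h6
      rw [List.getElem_map]
      exact h6
    · intro h4
      rw [← h4]
      refine ⟨List.length_map _, fun i hi => ?_⟩
      rw [List.getD_eq_getElem _ _ hi, List.getD_eq_getElem _ _ (by rwa [List.length_map]), List.getElem_map]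
  have hS : CompIn Y fun q : (Fml × List ℕ) × List ℕ => Sat N (renc q.1.1 q.2) e := by
    refine h.comp (f := fun q : (Fml × List ℕ) × List ℕ => renc q.1.1 q.2) ?_
    exact (renc_primrec.comp (Primrec.fst.comp Primrec.fst) Primrec.snd).to_comp
  have hT : CompIn Y fun p : Fml × List ℕ => Sat N (renc p.1 (p.2.map new)) e :=
    CompIn.of_graph (f := fun p : Fml × List ℕ => p.2.map new) hg hS
  have hF : CompIn Y fun p : Fml × List ℕ => ∀ i ∈ p.1.fv, i < p.2.length := by
    refine (compIn_of_comp (cp_of fv_lt_primrec) Y).comp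
      (f := fun p : Fml × List ℕ => (p.1, p.2.length)) ?_
    exact (Primrec.pair Primrec.fst (Primrec.list_length.comp Primrec.snd)).to_comp
  refine (hF.and hT).of_iff fun p => ?_
  show _ ↔ (∀ i ∈ p.1.fv, i < p.2.length) ∧ Sat N' p.1 (fun i => p.2.getD i 0)
  refine and_congr_right fun hp => ?_
  rw [sat_renc, sat_iso hiso p.1]
  refine sat_congr N p.1 _ _ fun i hi => ?_
  have hi' := hp i hi
  show e (ext (p.2.map new) i) = E (p.2.getD i 0)
  rw [hE]
  congr 1
  unfold ext
  rw [List.getD_eq_getElem _ _ (by rwa [List.length_map]), List.getD_eq_getElem _ _ hi', List.getElem_map]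

end Pool.Agent.H97.EM
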