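import Pool.Agent.H97.EM.Rel.Cmp
import Pool.Agent.H97.EM.Rel.Bas
import Pool.Agent.H97.EM.Inj.Map

/-! Finite injury construction: the limit is computable in the oracle. -/

namespace Pool.Agent.H97.EM.Inj

open Pool.Agent.H97.EM Classical

/-- The graph of the table is enumerable (bounded quantifier). -/
theorem tab_graph {Y : ℕ → Bool} {g : ℕ → ℕ → List ℕ}
    (hg : CeIn Y fun q : (ℕ × ℕ) × List ℕ => g q.1.1 q.1.2 = q.2) :
    CeIn Y fun q : ℕ × List (List ℕ) => tab g q.1 = q.2 := by
  have h1 : CeIn Y fun q : (ℕ × List (List ℕ)) × ℕ =>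
      g q.2.unpair.1 q.2.unpair.2 = q.1.2.getD q.2 [] := by
    refine hg.comp (f := fun q : (ℕ × List (List ℕ)) × ℕ =>
      ((q.2.unpair.1, q.2.unpair.2), q.1.2.getD q.2 [])) ?_
    refine Computable.pair (Computable.pair ?_ ?_) ?_
    · exact Computable.fst.comp (Primrec.unpair.to_comp.comp Computable.snd)
    · exact Computable.snd.comp (Primrec.unpair.to_comp.comp Computable.snd)
    · exact (Primrec.list_getD []).to_comp.comp (Computable.snd.comp Computable.fst) Computable.snd
  have h2 : CeIn Y fun q : ℕ × List (List ℕ) =>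
      ∀ k < q.1, g k.unpair.1 k.unpair.2 = q.2.getD k [] :=
    CeIn.ball (P := fun q : (ℕ × List (List ℕ)) × ℕ => g q.2.unpair.1 q.2.unpair.2 = q.1.2.getD q.2 []) h1
      (n := fun q => q.1) Computable.fst
  have h3 : CeIn Y fun q : ℕ × List (List ℕ) => q.2.length = q.1 := by
    refine (compIn_of_comp ?_ Y).1
    exact compPred_of (f := fun q : ℕ × List (List ℕ) => decide (q.2.length = q.1))
      (Primrec.eq.decide.to_comp.comp (Computable.list_length.comp Computable.snd) Computable.fst) (by simp)
  refine (h3.and h2).of_iff fun q => ?_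
  obtain ⟨L, γ⟩ := q
  show (γ.length = L ∧ ∀ k < L, g k.unpair.1 k.unpair.2 = γ.getD k []) ↔ tab g L = γ
  constructor
  · rintro ⟨h4, h5⟩
    refine List.ext_getElem ?_ ?_
    · unfold tab
      rw [List.length_map, List.length_range, h4]
    · intro i hi1 hi2
      have h6 := h5 i (by rw [← h4]; exact hi2)
      rw [List.getD_eq_getElem _ _ hi2] at h6
      rw [← h6]
      unfold tab
      rw [List.getElem_map, List.getElem_range]
  · rintro rfl
    refine ⟨by unfold tab; rw [List.length_map, List.length_range], fun k hk => ?_⟩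
    have h6 : k < (tab g L).length := by
      unfold tab
      rw [List.length_map, List.length_range]
      exact hk
    rw [List.getD_eq_getElem _ _ h6]
    unfold tab
    rw [List.getElem_map, List.getElem_range]

private theorem gam_pred {α : Type*} [Primcodable α] {F : α → St} (hF : Computable F) {e : α → ℕ} (he : Computable e)
    (b : Bool) : ComputablePred fun q : α => e q < (F q).2.1.length ∧ (F q).2.1.getD (e q) false = b := by
  have hr : Computable fun q : α => (F q).2.1 := Computable.fst.comp (Computable.snd.comp hF)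
  refine compPred_of (f := fun q : α => decide (e q < (F q).2.1.length) && ((F q).2.1.getD (e q) false == b)) ?_ ?_
  · refine Primrec.and.to_comp.comp (Primrec.nat_lt.decide.to_comp.comp he (Computable.list_length.comp hr)) ?_
    exact Primrec.beq.to_comp.comp ((Primrec.list_getD false).to_comp.comp hr he) (Computable.const b)
  · intro q
    rw [Bool.and_eq_true, decide_eq_true_eq, beq_iff_eq]

private theorem gam_aux {Y : ℕ → Bool} {d : Dat} (hB : CompStr d.B)
    (hg : CeIn Y fun q : (ℕ × ℕ) × List ℕ => d.g q.1.1 q.1.2 = q.2) (b : Bool) :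
    CeIn Y fun φ : Fml => ∃ t, Encodable.encode φ < (run d t).2.1.length ∧
      (run d t).2.1.getD (Encodable.encode φ) false = b := by
  have hr : Computable fun q : (Fml × ℕ) × List (List ℕ) => run (dT d q.2) q.1.2 :=
    Computable.comp (f := fun q : List (List ℕ) × ℕ => run (dT d q.1) q.2)
      (g := fun q : (Fml × ℕ) × List (List ℕ) => (q.2, q.1.2)) (run_dT_comp hB)
      (Computable.pair Computable.snd (Computable.snd.comp Computable.fst))
  have he : Computable fun q : (Fml × ℕ) × List (List ℕ) => Encodable.encode q.1.1 :=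
    Computable.encode.comp (Computable.fst.comp Computable.fst)
  have h1 : ComputablePred fun q : (Fml × ℕ) × List (List ℕ) =>
      Encodable.encode q.1.1 < (run (dT d q.2) q.1.2).2.1.length ∧
        (run (dT d q.2) q.1.2).2.1.getD (Encodable.encode q.1.1) false = b :=
    gam_pred (F := fun q : (Fml × ℕ) × List (List ℕ) => run (dT d q.2) q.1.2) hr he b
  have h2 : CeIn Y fun q : (Fml × ℕ) × List (List ℕ) =>
      tab d.g (Nat.pair (q.1.2 + 3) (q.1.2 + 3) + 1) = q.2 := by
    refine (tab_graph hg).comp (f := fun q : (Fml × ℕ) × List (List ℕ) =>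
      (Nat.pair (q.1.2 + 3) (q.1.2 + 3) + 1, q.2)) (Computable.pair ?_ Computable.snd)
    have h3 : Primrec fun q : (Fml × ℕ) × List (List ℕ) => q.1.2 + 3 :=
      Primrec.nat_add.comp (Primrec.snd.comp Primrec.fst) (Primrec.const 3)
    exact (Primrec.succ.comp (Primrec₂.natPair.comp h3 h3)).to_comp
  have h3 := CeIn.existsD (h2.and (compIn_of_comp h1 Y).1)
  have h4 := CeIn.exists h3
  refine h4.of_iff fun φ => ?_
  constructor
  · rintro ⟨t, γ, hγ, h5, h6⟩
    have h7 := run_dT d (L := Nat.pair (t + 3) (t + 3) + 1) (t := t) (Nat.lt_succ_self _)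
    dsimp only at hγ h5 h6
    rw [← hγ, h7] at h5 h6
    exact ⟨t, h5, h6⟩
  · rintro ⟨t, h5, h6⟩
    have h7 := run_dT d (L := Nat.pair (t + 3) (t + 3) + 1) (t := t) (Nat.lt_succ_self _)
    refine ⟨t, tab d.g (Nat.pair (t + 3) (t + 3) + 1), rfl, ?_, ?_⟩
    · dsimp only
      rw [h7]
      exact h5
    · dsimp only
      rw [h7]
      exact h6

/-- `φ` is in the limit iff there are `t` and a table `γ` (the correct one of the length
`Nat.pair (t + 3) (t + 3) + 1`) such that the decision about `φ` is made at stage `t` of the run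
with the table `γ` and is positive; the same for the complement (`sig_unbounded`,
`sig_prefix`). -/
theorem gam_rel {Y : ℕ → Bool} {d : Dat} {N : Str} {a : ℕ → ℕ} (h : Hyp d N a)
    (hB : CompStr d.B) (hg : CeIn Y fun q : (ℕ × ℕ) × List ℕ => d.g q.1.1 q.1.2 = q.2) :
    CompIn Y fun φ => φ ∈ Gam d := by
  refine ⟨(gam_aux hB hg true).of_iff fun φ => Iff.rfl, (gam_aux hB hg false).of_iff fun φ => ?_⟩
  constructor
  · rintro ⟨t, h1, h2⟩ ⟨s, h3, h4⟩
    rcases Nat.le_total s t with h5 | h5
    · obtain ⟨R, hR⟩ := sig_prefix (d := d) h5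
      rw [← hR, List.getD_append _ _ _ _ h3, h4] at h2
      exact Bool.noConfusion h2
    · obtain ⟨R, hR⟩ := sig_prefix (d := d) h5
      rw [← hR, List.getD_append _ _ _ _ h1, h2] at h4
      exact Bool.noConfusion h4
  · intro h1
    obtain ⟨t, ht⟩ := sig_unbounded h (Encodable.encode φ + 1)
    refine ⟨t, by omega, ?_⟩
    by_contra h2
    rw [Bool.not_eq_false] at h2
    exact h1 ⟨t, by omega, h2⟩

end Pool.Agent.H97.EM.Inj
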