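import Pool.Agent.H97.EM.Rel.Bas
import Pool.Agent.H97.EM.Low.Nam

/-! Names of types, relative form. -/

namespace Pool.Agent.H97.EM

/-- `g n s` is the least code below `s + 1` of a tuple for which the approximation at stage `s`
is negative, or `[]`. -/
theorem exists_names_rel {Y : ℕ → Bool} {N B : Str} (h : LimDecIn Y fun q : ℕ × List ℕ =>
    ¬ TE N (List.range q.1) B q.2) : ∃ g : ℕ → ℕ → List ℕ,
      (CeIn Y fun q : (ℕ × ℕ) × List ℕ => g q.1.1 q.1.2 = q.2) ∧
      ∀ n, (∃ Z, TE N (List.range n) B Z) →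
        ∃ Z, TE N (List.range n) B Z ∧ ∃ s₀, ∀ s, s₀ ≤ s → g n s = Z := by
  classical
  obtain ⟨G, hG, hG'⟩ := h
  have hPC : CompIn Y fun x : ((ℕ × ℕ) × List ℕ) × ℕ =>
      G ((x.1.1.1, Denumerable.ofNat (List ℕ) x.2), x.1.1.2) := by
    refine hG.comp (f := fun x : ((ℕ × ℕ) × List ℕ) × ℕ =>
      ((x.1.1.1, Denumerable.ofNat (List ℕ) x.2), x.1.1.2)) ?_
    exact Computable.pair (Computable.pair
      (Computable.fst.comp (Computable.fst.comp Computable.fst))
      ((Computable.ofNat (List ℕ)).comp Computable.snd))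
      (Computable.snd.comp (Computable.fst.comp Computable.fst))
  have hP2 : CompIn Y fun x : ((ℕ × ℕ) × List ℕ) × ℕ => ∀ c' < x.2,
      G ((x.1.1.1, Denumerable.ofNat (List ℕ) c'), x.1.1.2) := by
    refine CompIn.ball (P := fun y : (((ℕ × ℕ) × List ℕ) × ℕ) × ℕ =>
      G ((y.1.1.1.1, Denumerable.ofNat (List ℕ) y.2), y.1.1.1.2)) ?_ Computable.snd
    exact hPC.comp (f := fun y : (((ℕ × ℕ) × List ℕ) × ℕ) × ℕ => (y.1.1, y.2))
      (Computable.pair (Computable.fst.comp Computable.fst) Computable.snd)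
  have hP3 : CompIn Y fun x : ((ℕ × ℕ) × List ℕ) × ℕ =>
      Denumerable.ofNat (List ℕ) x.2 = x.1.2 := by
    refine compIn_of_comp (compPred_of
      (f := fun x : ((ℕ × ℕ) × List ℕ) × ℕ => decide (Denumerable.ofNat (List ℕ) x.2 = x.1.2))
      (Primrec.eq.decide.to_comp.comp ((Computable.ofNat (List ℕ)).comp Computable.snd)
        (Computable.snd.comp Computable.fst)) fun x => by simp) Y
  have hsucc : Computable fun q : (ℕ × ℕ) × List ℕ => q.1.2 + 1 :=
    Computable.succ.comp (Computable.snd.comp Computable.fst)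
  have h1 : CompIn Y fun q : (ℕ × ℕ) × List ℕ => ∃ c < q.1.2 + 1,
      (¬ G ((q.1.1, Denumerable.ofNat (List ℕ) c), q.1.2) ∧
        (∀ c' < c, G ((q.1.1, Denumerable.ofNat (List ℕ) c'), q.1.2))) ∧
          Denumerable.ofNat (List ℕ) c = q.2 :=
    CompIn.bex (P := fun x : ((ℕ × ℕ) × List ℕ) × ℕ =>
      (¬ G ((x.1.1.1, Denumerable.ofNat (List ℕ) x.2), x.1.1.2) ∧
        (∀ c' < x.2, G ((x.1.1.1, Denumerable.ofNat (List ℕ) c'), x.1.1.2))) ∧
          Denumerable.ofNat (List ℕ) x.2 = x.1.2) ((hPC.not.and hP2).and hP3) hsucc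
  have h2 : CompIn Y fun q : (ℕ × ℕ) × List ℕ => ∀ c < q.1.2 + 1,
      G ((q.1.1, Denumerable.ofNat (List ℕ) c), q.1.2) := CompIn.ball hPC hsucc
  have h3 : CompIn Y fun q : (ℕ × ℕ) × List ℕ => ([] : List ℕ) = q.2 :=
    compIn_of_comp (compPred_of
      (f := fun q : (ℕ × ℕ) × List ℕ => decide (([] : List ℕ) = q.2))
      (Primrec.eq.decide.to_comp.comp (Computable.const []) Computable.snd) fun q => by simp) Y
  refine ⟨fun n s => if h : ∃ c, c < s + 1 ∧ ¬ G ((n, Denumerable.ofNat (List ℕ) c), s) then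
    Denumerable.ofNat (List ℕ) (Nat.find h) else [], ?_, fun n hn => ?_⟩
  · refine (h1.or (h2.and h3)).1.of_iff ?_
    rintro ⟨⟨n, s⟩, q⟩
    show ((∃ c < s + 1, (¬ G ((n, Denumerable.ofNat (List ℕ) c), s) ∧
        (∀ c' < c, G ((n, Denumerable.ofNat (List ℕ) c'), s))) ∧
          Denumerable.ofNat (List ℕ) c = q) ∨
      ((∀ c < s + 1, G ((n, Denumerable.ofNat (List ℕ) c), s)) ∧ ([] : List ℕ) = q)) ↔
      (if h : ∃ c, c < s + 1 ∧ ¬ G ((n, Denumerable.ofNat (List ℕ) c), s) then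
        Denumerable.ofNat (List ℕ) (Nat.find h) else []) = q
    by_cases hex : ∃ c, c < s + 1 ∧ ¬ G ((n, Denumerable.ofNat (List ℕ) c), s)
    · rw [dif_pos hex]
      constructor
      · rintro (⟨c, hc, ⟨hc1, hc2⟩, hc3⟩ | ⟨ha, -⟩)
        · have : Nat.find hex = c := by
            rw [Nat.find_eq_iff]
            exact ⟨⟨hc, hc1⟩, fun c' hc' h' => h'.2 (hc2 c' hc')⟩
          rw [this]; exact hc3
        · obtain ⟨c, hc, hc'⟩ := hex
          exact absurd (ha c hc) hc'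
      · intro hq
        obtain ⟨hc, hc'⟩ := Nat.find_spec hex
        refine Or.inl ⟨Nat.find hex, hc, ⟨hc', fun c' h' => ?_⟩, hq⟩
        by_contra hn
        exact Nat.find_min hex h' ⟨by omega, hn⟩
    · rw [dif_neg hex]
      constructor
      · rintro (⟨c, hc, ⟨hc1, hc2⟩, hc3⟩ | ⟨-, ha⟩)
        · exact absurd ⟨c, hc, hc1⟩ hex
        · exact ha
      · intro hq
        refine Or.inr ⟨fun c hc => ?_, hq⟩
        by_contra hn
        exact hex ⟨c, hc, hn⟩
  · have hex : ∃ c, TE N (List.range n) B (Denumerable.ofNat (List ℕ) c) := by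
      obtain ⟨Z, hZ⟩ := hn
      exact ⟨Encodable.encode Z, by rw [Denumerable.ofNat_encode]; exact hZ⟩
    choose t ht using fun c : ℕ => hG' (n, Denumerable.ofNat (List ℕ) c)
    refine ⟨Denumerable.ofNat (List ℕ) (Nat.find hex), Nat.find_spec hex,
      max (Nat.find hex) ((Finset.range (Nat.find hex + 1)).sup t), fun s hs => ?_⟩
    have h4 : Nat.find hex ≤ s := le_trans (le_max_left _ _) hs
    have h5 : ∀ c ≤ Nat.find hex, t c ≤ s := fun c hc =>
      le_trans (Finset.le_sup (f := t) (Finset.mem_range.2 (by omega)))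
        (le_trans (le_max_right _ _) hs)
    have h6 : ¬ G ((n, Denumerable.ofNat (List ℕ) (Nat.find hex)), s) := fun hg =>
      (ht (Nat.find hex) s (h5 _ le_rfl)).1 hg (Nat.find_spec hex)
    have hex' : ∃ c, c < s + 1 ∧ ¬ G ((n, Denumerable.ofNat (List ℕ) c), s) :=
      ⟨Nat.find hex, by omega, h6⟩
    show (if h : ∃ c, c < s + 1 ∧ ¬ G ((n, Denumerable.ofNat (List ℕ) c), s) then
        Denumerable.ofNat (List ℕ) (Nat.find h) else []) = _
    rw [dif_pos hex']
    have h7 : Nat.find hex' = Nat.find hex := by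
      rw [Nat.find_eq_iff]
      refine ⟨⟨by omega, h6⟩, fun c hc h' => h'.2 ?_⟩
      exact (ht c s (h5 c hc.le)).2 (Nat.find_min hex hc)
    rw [h7]

end Pool.Agent.H97.EM
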