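import Pool.Agent.H97.EM.Rel.Gam
import Pool.Agent.H97.EM.Rel.Enu
import Pool.Agent.H97.EM.Rel.Nam
import Pool.Agent.H97.EM.Low.Main

/-! The jump theorem, relative form. -/

namespace Pool.Agent.H97.EM

open Inj in
theorem main_inj_rel {Y : ℕ → Bool} {B N : Str} {bb : List ℕ} (hbb : bb ≠ []) (hB : CompStr B)
    (hat : Atomic B bb) (hcov : Cov B bb N) {a : ℕ → ℕ} (ha : Function.Surjective a)
    {g : ℕ → ℕ → List ℕ} (hg : CeIn Y fun q : (ℕ × ℕ) × List ℕ => g q.1.1 q.1.2 = q.2)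
    (hY : ∀ n, 0 < n → ∃ Z, TE N ((List.range n).map a) B Z ∧ ∃ s₀, ∀ s, s₀ ≤ s → g n s = Z) :
    ∃ N', Iso N N' ∧ CompIn Y fun p : Fml × List ℕ => Holds N' p.1 p.2 := by
  obtain ⟨b, Z, hb, hZl, hTE⟩ := hcov [a 0]
  obtain ⟨b0, hb0⟩ : ∃ b0 : List ℕ, b0.map a = b := by
    choose r hr using ha
    refine ⟨b.map r, ?_⟩
    rw [List.map_map]
    have h1 : a ∘ r = id := funext fun x => hr x
    rw [h1, List.map_id]
  obtain ⟨y, rfl⟩ : ∃ y, Z = [y] := List.length_eq_one_iff.1 hZl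
  have h : Hyp ⟨B, bb, g, b0, y⟩ N a := by
    refine ⟨hbb, hat, ha, hcov, hY, ?_⟩
    show TE N ((b0 ++ [0]).map a) B (bb ++ [y])
    rw [List.map_append, hb0]
    exact hTE
  obtain ⟨e, he, hφ⟩ := exists_e h
  have h1 := gam_rel h hB hg
  refine enum_dec_rel he ?_
  have h2 : (fun φ : Fml => Sat N φ e) = fun φ => φ ∈ Gam ⟨B, bb, g, b0, y⟩ :=
    funext fun φ => propext (hφ φ).symm
  rw [h2]
  exact h1

theorem jump_rel {T : Set Fml} (hc : IsComplete T) (hf : FinMany T) (ht : CompTypes T)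
    {M : Str} (hM : IsModel M T) {X Y : ℕ → Bool} (hXY : JumpLe X Y) (h : DecModelIn X M) :
    DecModelIn Y M := by
  obtain ⟨N, hi, hN⟩ := h
  have hNT : IsModel N T := isModel_iso hi hM
  obtain ⟨B, bb, hbb, -, hBc, hat, hcov⟩ := exists_cov hc hf ht hNT
  obtain ⟨g, hg, hg'⟩ := exists_names_rel (hXY.limDec (ce_not_te hN hBc))
  obtain ⟨N', hi', hN'⟩ := main_inj_rel (a := id) hbb hBc hat hcov Function.surjective_id hg
    (fun n hn => by
      rw [List.map_id]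
      refine hg' n ?_
      obtain ⟨b, Z, h1, h2, h3⟩ := hcov (List.range n)
      refine ⟨Z, h3.right h1 ?_⟩
      intro h0
      have := congrArg List.length h0
      simp at this
      omega)
  exact ⟨N', iso_trans hi hi', hN'⟩

theorem decModelIn_empty {M : Str} : DecModelIn (fun _ => false) M ↔ DecModel M := by
  constructor
  · rintro ⟨N, hi, hN⟩
    exact ⟨N, hi, comp_of_compIn_empty hN⟩
  · rintro ⟨N, hi, hN⟩
    exact ⟨N, hi, compIn_of_comp hN _⟩

end Pool.Agent.H97.EM
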