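import Pool.Agent.H97.EM.Inj.Def

/-! Finite injury construction: finite tables in place of the approximations. -/

namespace Pool.Agent.H97.EM.Inj

open Pool.Agent.H97.EM Classical

/-- The data with a finite table in place of the approximations. -/
def dT (d : Dat) (γ : List (List ℕ)) : Dat :=
  ⟨d.B, d.bb, fun n s => γ.getD (Nat.pair n s) [], d.b0, d.y⟩

/-- The table of length `L`. -/
def tab (g : ℕ → ℕ → List ℕ) (L : ℕ) : List (List ℕ) :=
  (List.range L).map fun p => g p.unpair.1 p.unpair.2

private theorem length_step_le (d : Dat) (s : ℕ) (st : St) :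
    (step d s st).1.length ≤ st.1.length + 1 := by
  unfold step
  cases cnd d s (lev d s st) st.2.1 st.2.2 (st.1.getD (lev d s st) dft) with
  | none =>
    show (st.1.take (lev d s st + 1)).length ≤ _
    rw [List.length_take]
    omega
  | some k =>
    show (st.1.take (lev d s st + 1) ++ [_]).length ≤ _
    rw [List.length_append, List.length_take, List.length_singleton]
    omega

/-- The length of the stack is at most `s + 1`. -/
theorem length_run_le (d : Dat) (s : ℕ) : (run d s).1.length ≤ s + 1 := by
  induction s with
  | zero => exact le_rfl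
  | succ s ih =>
    have h := length_step_le d s (run d s)
    show (step d s (run d s)).1.length ≤ s + 1 + 1
    omega

private theorem mem_le_enc (l : List ℕ) : ∀ a ∈ l, a ≤ Encodable.encode l := by
  induction l with
  | nil => intro a ha; exact absurd ha List.not_mem_nil
  | cons b l ih =>
    intro a ha
    rw [Encodable.encode_list_cons]
    have h1 := Nat.left_le_pair (Encodable.encode b) (Encodable.encode l)
    have h2 := Nat.right_le_pair (Encodable.encode b) (Encodable.encode l)
    rcases List.mem_cons.1 ha with rfl | ha
    · have h3 : Encodable.encode a = a := rfl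
      omega
    · have := ih a ha
      omega

private theorem mem_le_ofNat (m : ℕ) : ∀ a ∈ Denumerable.ofNat (List ℕ) m, a ≤ m := by
  intro a ha
  have h := mem_le_enc _ a ha
  rwa [Denumerable.encode_ofNat] at h

private theorem foldr_max_le (l : List ℕ) (M : ℕ) (h : ∀ a ∈ l, a ≤ M) : l.foldr max 0 ≤ M := by
  induction l with
  | nil => exact Nat.zero_le _
  | cons b l ih =>
    rw [List.foldr_cons]
    exact max_le (h b List.mem_cons_self) (ih fun a ha => h a (List.mem_cons_of_mem _ ha))

private theorem bd_le (k l s : ℕ) (hk : k ≤ s) (hl : l ≤ s) :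
    bd l (Denumerable.ofNat Cand k) ≤ s + 2 := by
  unfold bd idx
  have h : (((Denumerable.ofNat Cand k).1 ++ (Denumerable.ofNat Cand k).2.1 ++ [l + 1]).foldr
      max 0) ≤ s + 1 := by
    refine foldr_max_le _ _ fun a ha => ?_
    rw [Denumerable.prod_ofNat_val, Denumerable.prod_ofNat_val] at ha
    have h1 := Nat.unpair_left_le k
    have h2 := Nat.unpair_right_le k
    have h3 := Nat.unpair_left_le k.unpair.2
    rcases List.mem_append.1 ha with ha | ha
    · rcases List.mem_append.1 ha with ha | ha
      · have := mem_le_ofNat _ a ha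
        omega
      · have := mem_le_ofNat _ a ha
        omega
    · rw [List.mem_singleton.1 ha]
      omega
  omega

private theorem find_congr {α : Type*} (l : List α) {p q : α → Bool} (h : ∀ a ∈ l, p a = q a) :
    l.find? p = l.find? q := by
  induction l with
  | nil => rfl
  | cons b l ih =>
    rw [List.find?_cons, List.find?_cons, h b List.mem_cons_self,
      ih fun a ha => h a (List.mem_cons_of_mem _ ha)]

/-- The tests of candidates with codes below `s + 1` at levels at most `s` at stage `s` use
`g n s` only for `n ≤ s + 2` (entries of a list are at most its code). -/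
theorem cnd_dT {d d' : Dat} (h1 : d.B = d'.B) (h2 : d.bb = d'.bb) {s l : ℕ} (hl : l ≤ s)
    (hg : ∀ n ≤ s + 2, d.g n s = d'.g n s) (σ : List Bool) (n : ℕ) (c : Cfg) :
    cnd d s l σ n c = cnd d' s l σ n c := by
  unfold cnd
  refine find_congr _ fun k hk => ?_
  have hk' := List.mem_range.1 hk
  have h3 := hg _ (bd_le k l s (by omega) hl)
  have h4 : Test d s l σ n c (Denumerable.ofNat Cand k) ↔
      Test d' s l σ n c (Denumerable.ofNat Cand k) := by
    unfold Test
    rw [h1, h2, h3]
  exact decide_eq_decide.2 h4

private theorem lev_le (d : Dat) (s : ℕ) (st : St) : lev d s st ≤ st.1.length - 1 := by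
  unfold lev
  cases h : (List.range (st.1.length - 1)).find? fun l =>
    decide (cnd d s l st.2.1 st.2.2 (st.1.getD l dft) ≠
      some (Encodable.encode (st.1.getD (l + 1) dft).1)) with
  | none => exact le_rfl
  | some l =>
    have h1 := List.mem_range.1 (List.mem_of_find?_eq_some h)
    exact h1.le

private theorem step_congr {d d' : Dat} (h1 : d.B = d'.B) (h2 : d.bb = d'.bb) {s : ℕ} {st : St}
    (hst : st.1.length ≤ s + 1) (hg : ∀ n ≤ s + 2, d.g n s = d'.g n s) :
    step d s st = step d' s st := by
  have hlev : lev d s st = lev d' s st := by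
    unfold lev
    congr 1
    refine find_congr _ fun l hl => ?_
    have hl' := List.mem_range.1 hl
    rw [cnd_dT h1 h2 (by omega) hg]
  have hle := lev_le d' s st
  have hpush : ∀ stk σ n m x, push d stk σ n m x = push d' stk σ n m x := by
    intro stk σ n m x
    obtain ⟨B, bb, g, b0, y⟩ := d
    obtain ⟨B', bb', g', b0', y'⟩ := d'
    have e1 : B = B' := h1
    subst e1
    rfl
  unfold step
  rw [hlev, cnd_dT h1 h2 (by omega) hg]
  cases cnd d' s (lev d' s st) st.2.1 st.2.2 (st.1.getD (lev d' s st) dft) with
  | none => rfl
  | some k => exact hpush _ _ _ _ _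

theorem run_congr {d d' : Dat} (h1 : d.B = d'.B) (h2 : d.bb = d'.bb) (h3 : d.b0 = d'.b0)
    (h4 : d.y = d'.y) {t : ℕ} (hg : ∀ s < t, ∀ n ≤ s + 2, d.g n s = d'.g n s) :
    run d t = run d' t := by
  induction t with
  | zero =>
    show ([c0 d], [], 1) = ([c0 d'], [], 1)
    unfold c0
    rw [h3, h4]
  | succ t ih =>
    show step d t (run d t) = step d' t (run d' t)
    rw [ih fun s hs => hg s (by omega)]
    exact step_congr h1 h2 (length_run_le d' t) (hg t (Nat.lt_succ_self t))

theorem run_dT (d : Dat) {L t : ℕ} (h : Nat.pair (t + 3) (t + 3) < L) :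
    run (dT d (tab d.g L)) t = run d t := by
  refine run_congr (d := dT d (tab d.g L)) (d' := d) rfl rfl rfl rfl fun s hs n hn => ?_
  have h1 : Nat.pair n s < L := by
    have e1 := Nat.pair_lt_pair_left s (show n < t + 3 by omega)
    have e2 := Nat.pair_lt_pair_right (t + 3) (show s < t + 3 by omega)
    omega
  show (tab d.g L).getD (Nat.pair n s) [] = d.g n s
  unfold tab
  rw [List.getD_eq_getElem _ _ (by simpa using h1)]
  simp

end Pool.Agent.H97.EM.Inj
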